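import Mathlib

/-!
Lemma P of the Dive file of MP_7b7176_co (helper64): a finite coloured comparability graph whose
monochromatic pairs are split has, in every component containing a red point, a red point
adjacent to all the others.

`N x t` reads: `t` lies in the (closed for red `x`, open for blue `x`) neighbourhood of `x`.
-/

namespace Pool.CW

/-- the comparability relation of `lt` -/
def Cmp {X : Type*} (lt : X → X → Prop) (x y : X) : Prop := lt x y ∨ lt y x

theorem lemmaP {X : Type*} [Finite X] (lt : X → X → Prop) (red : X → Prop) (N : X → X → Prop)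
    (hirr : ∀ a, ¬ lt a a) (htr : ∀ a b c, lt a b → lt b c → lt a c)
    (hN : ∀ x t, N x t ↔ (x = t ∧ red x) ∨ Cmp lt x t)
    (h1 : ∀ v, ¬ red v → (∃ t, N v t) → ∃ z, red z ∧ N v z ∧ ∀ t, N v t → N z t)
    (h2 : ∀ p q, red p → red q → Cmp lt p q → (∃ t, N q t ∧ ¬ N p t) → (∃ t, N p t ∧ ¬ N q t) →
      ∃ v, ¬ red v ∧
        ((N p v ∧ ¬ N q v ∧ (∀ t, N v t → N p t → N q t) ∧ (∀ t, N q t → N v t ∨ N p t)) ∨
         (N q v ∧ ¬ N p v ∧ (∀ t, N v t → N q t → N p t) ∧ (∀ t, N p t → N v t ∨ N q t))))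
    (h3 : ∀ p q, red p → red q → p ≠ q → ¬ Cmp lt p q → (∃ t, N p t ∧ N q t) →
      ∃ v, ¬ red v ∧ ¬ N p v ∧ ¬ N q v ∧ (∀ t, N p t → N q t → N v t) ∧
        (∀ t, N v t → N p t ∨ N q t))
    (r : X) (hr : red r) :
    ∃ z, red z ∧ Relation.ReflTransGen (Cmp lt) r z ∧
      ∀ t, Relation.ReflTransGen (Cmp lt) r t → t ≠ z → Cmp lt t z := by
  classical
  have hCsymm : ∀ x y, Cmp lt x y → Cmp lt y x := fun x y h => h.elim Or.inr Or.inl
  have hCne : ∀ x y, Cmp lt x y → x ≠ y := by
    intro x y h hxy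
    subst hxy
    exact h.elim (hirr x) (hirr x)
  have hNsymm : ∀ x y, N x y → N y x := by
    intro x y h
    rw [hN] at h ⊢
    rcases h with ⟨rfl, h⟩ | h
    · exact Or.inl ⟨rfl, h⟩
    · exact Or.inr (hCsymm _ _ h)
  have hNC : ∀ x y, N x y → x ≠ y → Cmp lt x y := by
    intro x y h hne
    rw [hN] at h
    rcases h with ⟨h, -⟩ | h
    · exact absurd h hne
    · exact h
  have hCN : ∀ x y, Cmp lt x y → N x y := fun x y h => (hN x y).2 (Or.inr h)
  have hNself : ∀ x, red x → N x x := fun x h => (hN x x).2 (Or.inl ⟨rfl, h⟩)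
  have hNbl : ∀ x, ¬ red x → ∀ y, N x y → Cmp lt x y := by
    intro x hx y h
    rw [hN] at h
    rcases h with ⟨-, h⟩ | h
    · exact absurd h hx
    · exact h
  -- the component
  let K : X → Prop := fun t => Relation.ReflTransGen (Cmp lt) r t
  have hKr : K r := Relation.ReflTransGen.refl
  have hKC : ∀ x y, K x → Cmp lt x y → K y := fun x y hx hxy => hx.tail hxy
  have hKN : ∀ x y, K x → N x y → K y := by
    intro x y hx hxy
    by_cases h : x = y
    · exact h ▸ hx
    · exact hKC x y hx (hNC x y hxy h)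
  -- the stars
  have := Fintype.ofFinite X
  let Dom : Finset X → Prop := fun S =>
    (∀ s ∈ S, red s ∧ K s) ∧ ∀ z, red z → K z → ∃ s ∈ S, ∀ t, N z t → N s t
  have hex : ∃ n, ∃ S : Finset X, S.card = n ∧ Dom S := by
    refine ⟨_, Finset.univ.filter (fun z => red z ∧ K z), rfl, ?_, ?_⟩
    · intro s hs
      simpa using hs
    · intro z hz hKz
      exact ⟨z, by simp [hz, hKz], fun t h => h⟩
  obtain ⟨S, hScard, hSred, hSdom⟩ := Nat.find_spec hex
  have hSmin : ∀ T : Finset X, Dom T → S.card ≤ T.card := by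
    intro T hT
    rw [hScard]
    exact Nat.find_min' hex ⟨T, rfl, hT⟩
  have hSnest : ∀ s ∈ S, ∀ s' ∈ S, (∀ t, N s t → N s' t) → s = s' := by
    intro s hs s' hs' hss
    by_contra hne
    have hD : Dom (S.erase s) := by
      refine ⟨fun x hx => hSred x (Finset.mem_of_mem_erase hx), ?_⟩
      intro z hz hKz
      obtain ⟨x, hx, hxz⟩ := hSdom z hz hKz
      by_cases hxs : x = s
      · subst hxs
        exact ⟨s', Finset.mem_erase.2 ⟨fun h => hne h.symm, hs'⟩, fun t ht => hss t (hxz t ht)⟩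
      · exact ⟨x, Finset.mem_erase.2 ⟨hxs, hx⟩, hxz⟩
    have h := hSmin _ hD
    have h' := Finset.card_erase_lt_of_mem hs
    omega
  -- a point of the component with a neighbour has a star
  have hd : ∀ t, K t → (red t ∨ ∃ y, N t y) → ∃ s ∈ S, N s t ∧ ∀ y, N t y → N s y := by
    intro t hKt ht
    by_cases hrt : red t
    · obtain ⟨s, hs, hst⟩ := hSdom t hrt hKt
      exact ⟨s, hs, hst t (hNself t hrt), hst⟩
    · obtain ⟨y, hy⟩ := ht.resolve_left hrt
      obtain ⟨z, hz, hvz, hzt⟩ := h1 t hrt ⟨y, hy⟩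
      obtain ⟨s, hs, hsz⟩ := hSdom z hz (hKN t z hKt hvz)
      exact ⟨s, hs, hsz t (hNsymm _ _ hvz), fun u hu => hsz u (hzt u hu)⟩
  -- every point of K has a star
  have hall : ∀ t, K t → ∃ s ∈ S, N s t ∧ ∀ y, N t y → N s y := by
    intro t hKt
    apply hd t hKt
    by_cases hrt : red t
    · exact Or.inl hrt
    · right
      rcases Relation.ReflTransGen.cases_tail hKt with h | ⟨c, -, hct⟩
      · exact absurd (h ▸ hr) hrt
      · exact ⟨c, hCN _ _ (hCsymm _ _ hct)⟩
  -- two comparable stars, or only one star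
  obtain ⟨s0, hs0, hs0r, hs0'⟩ := hall r hKr
  by_cases hone : ∀ s ∈ S, s = s0
  · refine ⟨s0, (hSred s0 hs0).1, (hSred s0 hs0).2, ?_⟩
    intro t ht hne
    obtain ⟨s, hs, hst, -⟩ := hall t ht
    rw [hone s hs] at hst
    exact hCsymm _ _ (hNC _ _ hst (fun h => hne h.symm))
  exfalso
  have hpair : ∃ s ∈ S, ∃ s' ∈ S, lt s s' := by
    by_contra hno
    have hno' : ∀ s ∈ S, ∀ s' ∈ S, N s s' → s = s' := by
      intro s hs s' hs' h
      by_contra hne
      rcases hNC s s' h hne with h | h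
      · exact hno ⟨s, hs, s', hs', h⟩
      · exact hno ⟨s', hs', s, hs, h⟩
    apply hone
    -- d is constant on K
    have hconst : ∀ t, K t → ∀ s ∈ S, N s t → (∀ y, N t y → N s y) → s = s0 := by
      intro t hKt
      induction hKt with
      | refl =>
        intro s hs hst hsy
        apply hno' s hs s0 hs0
        exact hsy s0 (hNsymm _ _ hs0r)
      | @tail b c hb hbc ih =>
        intro s hs hst hsy
        obtain ⟨s', hs', hs't, hs'y⟩ := hall b hb
        have e1 := ih s' hs' hs't hs'y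
        -- c ∈ N_b ⊂ N_s'
        have e2 : N s' c := hs'y c (hCN _ _ hbc)
        have e3 : N s s' := hsy s' (hNsymm _ _ e2)
        rw [← e1]
        exact hno' s hs s' hs' e3
    intro s hs
    exact hconst s (hSred s hs).2 s hs (hNself s (hSred s hs).1) (fun y h => h)
  -- choose q minimal among the stars with a star below
  let A : Finset X := S.filter (fun q => ∃ s ∈ S, lt s q)
  have hAne : A.Nonempty := by
    obtain ⟨s, hs, s', hs', h⟩ := hpair
    exact ⟨s', by simp only [A, Finset.mem_filter]; exact ⟨hs', s, hs, h⟩⟩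
  obtain ⟨q, hqA, hqmin⟩ : ∃ q ∈ A, ∀ p ∈ A, ¬ lt p q := by
    have : IsStrictOrder X lt := { irrefl := hirr, trans := htr }
    obtain ⟨q, hq, hq'⟩ := (Finite.wellFounded_of_trans_of_irrefl lt).has_min (↑A : Set X)
      (by exact_mod_cast hAne)
    exact ⟨q, by exact_mod_cast hq, fun p hp => hq' p (by exact_mod_cast hp)⟩
  obtain ⟨hqS, x, hxS, hxq⟩ : q ∈ S ∧ ∃ s ∈ S, lt s q := by
    simpa only [A, Finset.mem_filter] using hqA
  have hqred := (hSred q hqS).1
  have hKq := (hSred q hqS).2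
  -- block
  have hanti : ∀ s ∈ S, lt s q → ∀ s' ∈ S, lt s' q → ¬ lt s s' := by
    intro s hs hsq s' hs' hs'q hlt
    apply hqmin s' _ hs'q
    simp only [A, Finset.mem_filter]
    exact ⟨hs', s, hs, hlt⟩
  have hantiN : ∀ s ∈ S, lt s q → ∀ s' ∈ S, lt s' q → N s s' → s = s' := by
    intro s hs hsq s' hs' hs'q h
    by_contra hne
    rcases hNC s s' h hne with h | h
    · exact hanti s hs hsq s' hs' hs'q h
    · exact hanti s' hs' hs'q s hs hsq h
  -- (G)
  have hG : ∀ w, lt w q → ∃ m ∈ S, (m = q ∨ lt m q) ∧ N m w ∧ ∀ y, N w y → N m y := by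
    intro w hwq
    have hKw : K w := hKC q w hKq (Or.inr hwq)
    obtain ⟨m, hm, hmw, hmy⟩ := hall w hKw
    refine ⟨m, hm, ?_, hmw, hmy⟩
    by_cases hmq : m = q
    · exact Or.inl hmq
    · have h : N m q := hmy q (hCN _ _ (Or.inl hwq))
      rcases hNC m q h hmq with h | h
      · exact Or.inr h
      · exfalso
        apply hmq
        symm
        apply hSnest q hqS m hm
        intro t ht
        rw [hN] at ht
        rcases ht with ⟨rfl, -⟩ | ht | ht
        · exact hCN _ _ (Or.inr h)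
        · -- q < t
          exact hmy t (hCN _ _ (Or.inl (htr _ _ _ hwq ht)))
        · exact hCN _ _ (Or.inr (htr _ _ _ ht h))
  -- non-nestedness of different stars
  have hnn : ∀ s ∈ S, ∀ s' ∈ S, s ≠ s' → ∃ t, N s t ∧ ¬ N s' t := by
    intro s hs s' hs' hne
    by_contra hno
    push Not at hno
    exact hne (hSnest s hs s' hs' hno)
  have hxred := (hSred x hxS).1
  have hne : x ≠ q := fun h => hirr q (h ▸ hxq)
  -- general fact: for every star y < q, and z with N q z, not N y z: z < q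
  have hbelow : ∀ y, lt y q → ∀ z, N q z → ¬ N y z → lt z q := by
    intro y hyq z hz hnz
    rw [hN] at hz
    rcases hz with ⟨rfl, -⟩ | hz | hz
    · exact absurd (hCN _ _ (Or.inl hyq)) hnz
    · exact absurd (hCN _ _ (Or.inl (htr _ _ _ hyq hz))) hnz
    · exact hz
  by_cases hblock : ∃ y ∈ S, lt y q ∧ y ≠ x
  · -- (B)
    obtain ⟨y, hyS, hyq, hyx⟩ := hblock
    have hyred := (hSred y hyS).1
    -- splitter of (x,q)
    obtain ⟨z, hzb, hz⟩ := h2 x q hxred hqred (Or.inl hxq)
      (hnn q hqS x hxS (Ne.symm hne)) (hnn x hxS q hqS hne)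
    rcases hz with ⟨hxz, hqz, -, hz4⟩ | ⟨hqz, hxz, hz3, hz4⟩
    · -- x-side
      have hyz : N z y := by
        rcases hz4 y (hCN _ _ (Or.inr hyq)) with h | h
        · exact h
        · exact absurd (hantiN x hxS hxq y hyS hyq h) (Ne.symm hyx)
      -- (3)
      have hnxy : ¬ Cmp lt x y := fun h => (Ne.symm hyx) (hantiN x hxS hxq y hyS hyq (hCN _ _ h))
      obtain ⟨v, hvb, hvx, hvy, hv3, hv4⟩ := h3 x y hxred hyred (Ne.symm hyx) hnxy
        ⟨q, hCN _ _ (Or.inl hxq), hCN _ _ (Or.inl hyq)⟩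
      have hvq : N v q := hv3 q (hCN _ _ (Or.inl hxq)) (hCN _ _ (Or.inl hyq))
      have hvz : N v z := hv3 z hxz (hNsymm _ _ hyz)
      have hvltq : lt v q := hbelow x hxq v (hNsymm _ _ hvq) hvx
      obtain ⟨m, hm, hmq, hmv, hmy⟩ := hG v hvltq
      rcases hmq with rfl | hmq
      · exact hqz (hmy z hvz)
      · -- m ∈ block, m ∈ N_v
        rcases hv4 m (hNsymm _ _ hmv) with h | h
        · have := hantiN x hxS hxq m hm hmq h
          subst this
          exact hvx hmv
        · have := hantiN y hyS hyq m hm hmq h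
          subst this
          exact hvy hmv
    · -- q-side
      have hzq : lt z q := hbelow x hxq z hqz hxz
      obtain ⟨m, hm, hmq, hmz, hmy⟩ := hG z hzq
      rcases hmq with rfl | hmq
      · -- N_z ⊂ N_q, hence N_x ⊂ N_q
        exact hne (hSnest x hxS _ hqS (fun t ht => (hz4 t ht).elim (hmy t) id))
      · have h := hz3 m (hNsymm _ _ hmz) (hCN _ _ (Or.inr hmq))
        have := hantiN x hxS hxq m hm hmq h
        subst this
        exact hxz hmz
  · -- (A)
    push Not at hblock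
    have hA : ∀ w, N q w → ¬ N x w → ∀ y, N w y → N q y := by
      intro w hqw hxw
      have hwq := hbelow x hxq w hqw hxw
      obtain ⟨m, hm, hmq, hmw, hmy⟩ := hG w hwq
      rcases hmq with rfl | hmq
      · exact hmy
      · have := hblock m hm hmq
        subst this
        exact absurd hmw hxw
    obtain ⟨w, hqw, hxw⟩ := hnn q hqS x hxS (Ne.symm hne)
    obtain ⟨v, hvb, hv⟩ := h2 x q hxred hqred (Or.inl hxq)
      (hnn q hqS x hxS (Ne.symm hne)) (hnn x hxS q hqS hne)
    rcases hv with ⟨hxv, hqv, -, hv4⟩ | ⟨hqv, hxv, -, hv4⟩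
    · rcases hv4 w hqw with h | h
      · exact hqv (hA w hqw hxw v (hNsymm _ _ h))
      · exact hxw h
    · exact hne (hSnest x hxS q hqS (fun t ht => (hv4 t ht).elim (hA v hqv hxv t) id))

end Pool.CW
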