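import Mathlib

/-!
Theorem WP (helper74, Dive/MP_7b7176_co/helper74.md): one-root theorem from pairs with exactly
one empty band.  Points of a finite set in general position in the plane are given by their
column `c` and row `r`; `L c r x y` is the order (left of and below).
-/

namespace Pool.CW.WPT

variable {X : Type*}

/-- `x` is left of and below `y` -/
def L (c r : X → ℤ) (x y : X) : Prop := c x < c y ∧ r x < r y

/-- closed neighbourhood -/
def N (c r : X → ℤ) (z w : X) : Prop := w = z ∨ L c r z w ∨ L c r w z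

/-- columns strictly between, row above `y` -/
def Vt (c r : X → ℤ) (x y w : X) : Prop := c x < c w ∧ c w < c y ∧ r y < r w

/-- columns strictly between, row below `x` -/
def Vb (c r : X → ℤ) (x y w : X) : Prop := c x < c w ∧ c w < c y ∧ r w < r x

/-- top splitter -/
def Top (c r : X → ℤ) (x y v : X) : Prop :=
  Vt c r x y v ∧ (∀ w, Vt c r x y w → w ≠ v → ¬ L c r w v ∧ ¬ L c r v w) ∧
    ∀ w, Vb c r x y w → L c r w v

/-- bottom splitter -/
def Bot (c r : X → ℤ) (x y v : X) : Prop :=
  Vb c r x y v ∧ (∀ w, Vb c r x y w → w ≠ v → ¬ L c r w v ∧ ¬ L c r v w) ∧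
    ∀ w, Vt c r x y w → L c r v w

/-- the hypotheses -/
structure Sys (c r : X → ℤ) (red : X → Prop) : Prop where
  hc : Function.Injective c
  hr : Function.Injective r
  amin : ∀ v, ¬ red v → (∀ w, ¬ L c r w v) → (∃ w, L c r v w) →
    ∃ z, red z ∧ L c r v z ∧ ∀ w, L c r v w → N c r z w
  amax : ∀ v, ¬ red v → (∀ w, ¬ L c r v w) → (∃ w, L c r w v) →
    ∃ z, red z ∧ L c r z v ∧ ∀ w, L c r w v → N c r z w
  bV : ∀ x y, red x → red y → L c r x y → (∀ w, ¬ Vt r c x y w) → (∀ w, ¬ Vb r c x y w) →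
    (∃ w, Vt c r x y w ∨ Vb c r x y w) → ∃ v, ¬ red v ∧ (Top c r x y v ∨ Bot c r x y v)
  bH : ∀ x y, red x → red y → L c r x y → (∀ w, ¬ Vt c r x y w) → (∀ w, ¬ Vb c r x y w) →
    (∃ w, Vt r c x y w ∨ Vb r c x y w) → ∃ v, ¬ red v ∧ (Top r c x y v ∨ Bot r c x y v)
  conn : ∀ a b, Relation.ReflTransGen (fun x y => L c r x y ∨ L c r y x) a b
  hred : ∃ a, red a

theorem L_swap (c r : X → ℤ) (x y : X) : L r c x y ↔ L c r x y := by
  unfold L; exact and_comm

theorem N_swap (c r : X → ℤ) (x y : X) : N r c x y ↔ N c r x y := by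
  unfold N; rw [L_swap c r x y, L_swap c r y x]

theorem L_trans {c r : X → ℤ} {x y z : X} (h1 : L c r x y) (h2 : L c r y z) : L c r x z :=
  ⟨h1.1.trans h2.1, h1.2.trans h2.2⟩

theorem L_irrefl {c r : X → ℤ} {x : X} (h : L c r x x) : False := lt_irrefl _ h.1

theorem Top_swap (c r : X → ℤ) (x y v : X) :
    (Vt r c x y v ∧ (∀ w, Vt r c x y w → w ≠ v → ¬ L c r w v ∧ ¬ L c r v w) ∧
    ∀ w, Vb r c x y w → L c r w v) ↔ Top r c x y v := by
  unfold Top
  simp only [L_swap]

theorem Sys.swap {c r : X → ℤ} {red : X → Prop} (h : Sys c r red) : Sys r c red where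
  hc := h.hr
  hr := h.hc
  amin := by
    intro v hv h1 h2
    simp only [L_swap, N_swap] at h1 h2 ⊢
    exact h.amin v hv h1 h2
  amax := by
    intro v hv h1 h2
    simp only [L_swap, N_swap] at h1 h2 ⊢
    exact h.amax v hv h1 h2
  bV := by
    intro x y hx hy hxy h1 h2 h3
    exact h.bH x y hx hy ((L_swap c r x y).1 hxy) h1 h2 h3
  bH := by
    intro x y hx hy hxy h1 h2 h3
    exact h.bV x y hx hy ((L_swap c r x y).1 hxy) h1 h2 h3
  conn := by
    intro a b
    simp only [L_swap]
    exact h.conn a b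
  hred := h.hred

/-- negated coordinate -/
def ng (c : X → ℤ) : X → ℤ := fun x => - c x

theorem L_ng (c r : X → ℤ) (x y : X) : L (ng c) (ng r) x y ↔ L c r y x := by
  unfold L ng; constructor <;> rintro ⟨h1, h2⟩ <;> constructor <;> omega

theorem N_ng (c r : X → ℤ) (x y : X) : N (ng c) (ng r) x y ↔ N c r x y := by
  unfold N; rw [L_ng, L_ng]; tauto

theorem Vt_ng (c r : X → ℤ) (x y w : X) : Vt (ng c) (ng r) x y w ↔ Vb c r y x w := by
  unfold Vt Vb ng
  constructor
  · rintro ⟨h1, h2, h3⟩
    refine ⟨by omega, by omega, by omega⟩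
  · rintro ⟨h1, h2, h3⟩
    refine ⟨by omega, by omega, by omega⟩

theorem Vb_ng (c r : X → ℤ) (x y w : X) : Vb (ng c) (ng r) x y w ↔ Vt c r y x w := by
  unfold Vt Vb ng
  constructor
  · rintro ⟨h1, h2, h3⟩
    refine ⟨by omega, by omega, by omega⟩
  · rintro ⟨h1, h2, h3⟩
    refine ⟨by omega, by omega, by omega⟩

theorem Top_ng (c r : X → ℤ) (x y v : X) : Top (ng c) (ng r) x y v ↔ Bot c r y x v := by
  unfold Top Bot
  simp only [Vt_ng, Vb_ng, L_ng]
  constructor
  · rintro ⟨h1, h2, h3⟩
    exact ⟨h1, fun w hw hne => ⟨(h2 w hw hne).2, (h2 w hw hne).1⟩, h3⟩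
  · rintro ⟨h1, h2, h3⟩
    exact ⟨h1, fun w hw hne => ⟨(h2 w hw hne).2, (h2 w hw hne).1⟩, h3⟩

theorem Bot_ng (c r : X → ℤ) (x y v : X) : Bot (ng c) (ng r) x y v ↔ Top c r y x v := by
  unfold Top Bot
  simp only [Vt_ng, Vb_ng, L_ng]
  constructor
  · rintro ⟨h1, h2, h3⟩
    exact ⟨h1, fun w hw hne => ⟨(h2 w hw hne).2, (h2 w hw hne).1⟩, h3⟩
  · rintro ⟨h1, h2, h3⟩
    exact ⟨h1, fun w hw hne => ⟨(h2 w hw hne).2, (h2 w hw hne).1⟩, h3⟩

theorem Sys.rot {c r : X → ℤ} {red : X → Prop} (h : Sys c r red) :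
    Sys (ng c) (ng r) red where
  hc := fun a b hab => h.hc (by unfold ng at hab; omega)
  hr := fun a b hab => h.hr (by unfold ng at hab; omega)
  amin := by
    intro v hv h1 h2
    simp only [L_ng, N_ng] at h1 h2 ⊢
    exact h.amax v hv h1 h2
  amax := by
    intro v hv h1 h2
    simp only [L_ng, N_ng] at h1 h2 ⊢
    exact h.amin v hv h1 h2
  bV := by
    intro x y hx hy hxy h1 h2 h3
    simp only [L_ng, Vt_ng, Vb_ng, Top_ng, Bot_ng] at hxy h1 h2 h3 ⊢
    obtain ⟨v, hv, hv'⟩ := h.bV y x hy hx hxy h2 h1 (by obtain ⟨w, hw⟩ := h3; exact ⟨w, hw.symm⟩)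
    exact ⟨v, hv, hv'.symm⟩
  bH := by
    intro x y hx hy hxy h1 h2 h3
    simp only [L_ng, Vt_ng, Vb_ng, Top_ng, Bot_ng] at hxy h1 h2 h3 ⊢
    obtain ⟨v, hv, hv'⟩ := h.bH y x hy hx hxy h2 h1 (by obtain ⟨w, hw⟩ := h3; exact ⟨w, hw.symm⟩)
    exact ⟨v, hv, hv'.symm⟩
  conn := by
    intro a b
    have hmono : ∀ x y, (L c r x y ∨ L c r y x) →
        (L (ng c) (ng r) x y ∨ L (ng c) (ng r) y x) := by
      intro x y hxy
      rw [L_ng, L_ng]
      exact hxy.symm
    exact Relation.ReflTransGen.mono hmono a b (h.conn a b)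
  hred := h.hred

/-- inclusion-maximal reds -/
def R (c r : X → ℤ) (red : X → Prop) (z : X) : Prop :=
  red z ∧ ∀ z', red z' → (∀ w, N c r z w → N c r z' w) → ∀ w, N c r z' w → N c r z w

theorem R_swap {c r : X → ℤ} {red : X → Prop} {z : X} (h : R c r red z) : R r c red z := by
  refine ⟨h.1, ?_⟩
  intro z' hz' h1
  simp only [N_swap] at h1 ⊢
  exact h.2 z' hz' h1

theorem R_ng {c r : X → ℤ} {red : X → Prop} {z : X} (h : R c r red z) :
    R (ng c) (ng r) red z := by
  refine ⟨h.1, ?_⟩
  intro z' hz' h1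
  simp only [N_ng] at h1 ⊢
  exact h.2 z' hz' h1

/-- `s` is an inclusion-maximal red dominating the maximal point `t` -/
def Dm (c r : X → ℤ) (red : X → Prop) (s t : X) : Prop :=
  R c r red s ∧ (∀ w, ¬ L c r t w) ∧ (s = t ∨ L c r s t) ∧ ∀ w, (w = t ∨ L c r w t) → N c r s w

theorem Dm_swap {c r : X → ℤ} {red : X → Prop} {s t : X} (h : Dm c r red s t) :
    Dm r c red s t := by
  obtain ⟨h1, h2, h3, h4⟩ := h
  refine ⟨R_swap h1, ?_, ?_, ?_⟩
  · simpa only [L_swap] using h2
  · simpa only [L_swap] using h3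
  · intro w hw
    rw [N_swap]
    exact h4 w (by simpa only [L_swap] using hw)

theorem exists_R [Finite X] {c r : X → ℤ} {red : X → Prop} {z : X} (hz : red z) :
    ∃ s, R c r red s ∧ ∀ w, N c r z w → N c r s w := by
  classical
  have hfin : (Set.ofPred fun s => red s ∧ ∀ w, N c r z w → N c r s w).Finite := Set.toFinite _
  have hne : (Set.ofPred fun s => red s ∧ ∀ w, N c r z w → N c r s w).Nonempty := ⟨z, hz, fun w h => h⟩
  obtain ⟨s, hs, hmax⟩ := Set.exists_max_image _ (fun s => (Set.ofPred fun w => N c r s w).ncard)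
    hfin hne
  refine ⟨s, ⟨hs.1, ?_⟩, hs.2⟩
  intro z' hz' h1
  have h2 := hmax z' ⟨hz', fun w hw => h1 w (hs.2 w hw)⟩
  have hsub : (Set.ofPred fun w => N c r s w) ⊆ (Set.ofPred fun w => N c r z' w) := fun w hw => h1 w hw
  have heq := Set.eq_of_subset_of_ncard_le hsub h2 (Set.toFinite _)
  intro w hw
  have : w ∈ (Set.ofPred fun w => N c r z' w) := hw
  rw [← heq] at this
  exact this

theorem exists_max_above [Finite X] (c r : X → ℤ) (a : X) :
    ∃ t, (t = a ∨ L c r a t) ∧ ∀ w, ¬ L c r t w := by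
  classical
  have hfin : (Set.ofPred fun s => s = a ∨ L c r a s).Finite := Set.toFinite _
  have hne : (Set.ofPred fun s => s = a ∨ L c r a s).Nonempty := ⟨a, Or.inl rfl⟩
  obtain ⟨t, ht, hmax⟩ := Set.exists_max_image _ c hfin hne
  refine ⟨t, ht, ?_⟩
  intro w hw
  have h1 : w = a ∨ L c r a w := by
    rcases ht with rfl | ht
    · exact Or.inr hw
    · exact Or.inr (L_trans ht hw)
  have := hmax w h1
  have := hw.1
  omega

theorem exists_Dm [Finite X] {c r : X → ℤ} {red : X → Prop} (h : Sys c r red) {t : X}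
    (ht : ∀ w, ¬ L c r t w) : ∃ s, Dm c r red s t := by
  by_cases hrt : red t
  · obtain ⟨s, hs, hsub⟩ := exists_R (c := c) (r := r) hrt
    refine ⟨s, hs, ht, ?_, ?_⟩
    · have := hsub t (Or.inl rfl)
      rcases this with h1 | h1 | h1
      · exact Or.inl h1.symm
      · exact Or.inr h1
      · exact absurd h1 (ht s)
    · intro w hw
      apply hsub
      rcases hw with rfl | hw
      · exact Or.inl rfl
      · exact Or.inr (Or.inr hw)
  · have hD : ∃ w, L c r w t := by
      obtain ⟨a, ha⟩ := h.hred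
      rcases Relation.ReflTransGen.cases_head (h.conn t a) with h1 | ⟨b, h1, -⟩
      · subst h1; exact absurd ha hrt
      · rcases h1 with h1 | h1
        · exact absurd h1 (ht b)
        · exact ⟨b, h1⟩
    obtain ⟨z, hz, hzt, hzD⟩ := h.amax t hrt ht hD
    obtain ⟨s, hs, hsub⟩ := exists_R (c := c) (r := r) hz
    refine ⟨s, hs, ht, ?_, ?_⟩
    · have := hsub t (Or.inr (Or.inl hzt))
      rcases this with h1 | h1 | h1
      · exact Or.inl h1.symm
      · exact Or.inr h1
      · exact absurd h1 (ht s)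
    · intro w hw
      apply hsub
      rcases hw with rfl | hw
      · exact Or.inr (Or.inl hzt)
      · exact hzD w hw

theorem lemma1 {c r : X → ℤ} {red : X → Prop} (h : Sys c r red) {x y v z : X}
    (hx : R c r red x) (hy : R c r red y) (hxy : L c r x y)
    (hH1 : ∀ w, ¬ Vt r c x y w) (hH2 : ∀ w, ¬ Vb r c x y w)
    (hvb : ¬ red v) (hv : Top c r x y v)
    (hvmax : ∀ v', ¬ red v' → Top c r x y v' → c v' ≤ c v)
    (hz : red z) (hzv : L c r z v) (hD : ∀ w, L c r w v → N c r z w) : False := by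
  have hcne : ∀ a b, a ≠ b → c a ≠ c b := fun a b hab => h.hc.ne hab
  have hrne : ∀ a b, a ≠ b → r a ≠ r b := fun a b hab => h.hr.ne hab
  obtain ⟨⟨hv1, hv2, hv3⟩, hvA, hvB⟩ := hv
  obtain ⟨hxy1, hxy2⟩ := hxy
  have hyv : ¬ N c r y v := by
    rintro (h1 | h1 | h1)
    · subst h1; omega
    · exact absurd h1.1 (by omega)
    · exact absurd h1.2 (by omega)
  -- a bottom point exists
  have key : ∀ a, red a → (∀ w, ¬ Vb r c a y w) → L c r a y → N c r a v →
      ∃ b, Vb c r a y b := by
    intro a ha haH hay hav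
    by_contra hcon
    push Not at hcon
    have hsub : ∀ w, N c r y w → N c r a w := by
      intro w hw
      rcases hw with rfl | hw | hw
      · exact Or.inr (Or.inl hay)
      · exact Or.inr (Or.inl (L_trans hay hw))
      · by_cases hwa : w = a
        · exact Or.inl hwa
        have h1 := hcne w a hwa
        have h2 := hrne w a hwa
        rcases lt_or_gt_of_ne h1 with h1 | h1 <;> rcases lt_or_gt_of_ne h2 with h2 | h2
        · exact Or.inr (Or.inr ⟨h1, h2⟩)
        · exact absurd (show Vb r c a y w from ⟨h2, hw.2, h1⟩) (haH w)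
        · exact absurd (show Vb c r a y w from ⟨h1, hw.1, h2⟩) (hcon w)
        · exact Or.inr (Or.inl ⟨h1, h2⟩)
    exact hyv (hy.2 a ha hsub v hav)
  have hxv : L c r x v := ⟨hv1, by omega⟩
  obtain ⟨b, hb1, hb2, hb3⟩ := key x hx.1 hH2 ⟨hxy1, hxy2⟩ (Or.inr (Or.inl hxv))
  have hbv : L c r b v := hvB b ⟨hb1, hb2, hb3⟩
  have hzx := hD x hxv
  have hzb := hD b hbv
  have hxb : ¬ N c r x b := by
    rintro (h1 | h1 | h1)
    · subst h1; omega
    · exact absurd h1.2 (by omega)
    · exact absurd h1.1 (by omega)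
  rcases hzx with h1 | h1 | h1
  · subst h1; exact hxb hzb
  · -- z < x
    have hsub : ∀ w, N c r x w → N c r z w := by
      intro w hw
      rcases hw with rfl | hw | hw
      · exact Or.inr (Or.inl h1)
      · exact Or.inr (Or.inl (L_trans h1 hw))
      · exact hD w (L_trans hw hxv)
    exact hxb (hx.2 z hz hsub b hzb)
  obtain ⟨hxz1, hxz2⟩ := h1
  obtain ⟨hzv1, hzv2⟩ := hzv
  have hzy : z ≠ y := by rintro rfl; omega
  have hzvne : z ≠ v := by rintro rfl; omega
  have hzr : r z < r y := by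
    by_contra hcon
    have h2 := hrne z y hzy
    have h3 : r y < r z := by omega
    exact (hvA z ⟨hxz1, by omega, h3⟩ hzvne).1 ⟨hzv1, hzv2⟩
  have hZ1 : ∀ w, ¬ Vt r c z y w := by
    rintro w ⟨h2, h3, h4⟩
    exact hH1 w ⟨by omega, h3, h4⟩
  have hinc : ∀ w, c z < c w → r w < r z → ¬ N c r z w := by
    intro w h2 h3 h4
    rcases h4 with h4 | h4 | h4
    · subst h4; omega
    · exact absurd h4.2 (by omega)
    · exact absurd h4.1 (by omega)
  have hinc' : ∀ w, c w < c z → r z < r w → ¬ N c r z w := by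
    intro w h2 h3 h4
    rcases h4 with h4 | h4 | h4
    · subst h4; omega
    · exact absurd h4.1 (by omega)
    · exact absurd h4.2 (by omega)
  have hZ2 : ∀ w, ¬ Vb r c z y w := by
    rintro w ⟨h2, h3, h4⟩
    exact hinc' w h4 h2 (hD w ⟨by omega, by omega⟩)
  have hzvN : N c r z v := Or.inr (Or.inl ⟨hzv1, hzv2⟩)
  obtain ⟨w0, hw0⟩ := key z hz hZ2 ⟨by omega, hzr⟩ hzvN
  have hBz : ∀ w, Vb c r z y w → c v < c w := by
    rintro w ⟨h2, h3, h4⟩
    by_contra hcon
    have hwv : w ≠ v := by rintro rfl; omega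
    have h5 := hcne w v hwv
    exact hinc w h2 h4 (hD w ⟨by omega, by omega⟩)
  have hVv : Vt c r z y v := ⟨hzv1, hv2, hv3⟩
  obtain ⟨v', hv'b, hv' | hv'⟩ := h.bV z y hz hy.1 ⟨by omega, hzr⟩ hZ1 hZ2 ⟨v, Or.inl hVv⟩
  · obtain ⟨⟨h2, h3, h4⟩, h5, h6⟩ := hv'
    have h7 := h6 w0 hw0
    have h8 := hBz w0 hw0
    have h9 : c v < c v' := by have := h7.1; omega
    have hv'v : v' ≠ v := by rintro rfl; omega
    have h10 := hvA v' ⟨by omega, h3, h4⟩ hv'v
    have h11 : r v' < r v := by
      have := hrne v' v hv'v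
      by_contra hcon
      exact h10.2 ⟨h9, by omega⟩
    have htop : Top c r x y v' := by
      refine ⟨⟨by omega, h3, h4⟩, ?_, ?_⟩
      · rintro w ⟨hw1, hw2, hw3⟩ hwne
        by_cases hcw : c z < c w
        · exact h5 w ⟨hcw, hw2, hw3⟩ hwne
        · have hwz : w ≠ z := by rintro rfl; omega
          have := hcne w z hwz
          have hwv : w ≠ v := by rintro rfl; omega
          have h12 := hvA w ⟨hw1, hw2, hw3⟩ hwv
          have h13 := hrne w v hwv
          have h14 : r v < r w := by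
            by_contra hcon
            exact h12.1 ⟨by omega, by omega⟩
          exact ⟨fun hL => absurd hL.2 (by omega), fun hL => absurd hL.1 (by omega)⟩
      · intro w hw
        have hwv := hvB w hw
        obtain ⟨hw1, hw2, hw3⟩ := hw
        rcases hD w hwv with h12 | h12 | h12
        · subst h12; omega
        · exact absurd h12.2 (by omega)
        · have := h12.1
          exact ⟨by omega, by omega⟩
    have := hvmax v' hv'b htop
    omega
  · obtain ⟨h2, h3, h4⟩ := hv'
    have h5 := hBz v' h2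
    have h6 := (h4 v hVv).1
    omega

theorem lemma2 [Finite X] {c r : X → ℤ} {red : X → Prop} (h : Sys c r red) {x y : X}
    (hx : R c r red x) (hy : R c r red y) (hxy : L c r x y)
    (hH1 : ∀ w, ¬ Vt r c x y w) (hH2 : ∀ w, ¬ Vb r c x y w)
    (hex : ∃ v, ¬ red v ∧ Top c r x y v) :
    ∃ v, ¬ red v ∧ Top c r x y v ∧ (∀ w, L c r v w → L c r y w) ∧ (∃ w, L c r v w) ∧
      ∀ s t, Dm c r red s t → L c r v t → L c r v s := by
  classical
  have hfin : (Set.ofPred fun v => ¬ red v ∧ Top c r x y v).Finite := Set.toFinite _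
  obtain ⟨v, ⟨hvb, hv⟩, hmax⟩ := Set.exists_max_image _ c hfin hex
  have hvmax : ∀ v', ¬ red v' → Top c r x y v' → c v' ≤ c v := fun v' h1 h2 => hmax v' ⟨h1, h2⟩
  have hL1 : ∀ z, red z → L c r z v → (∀ w, L c r w v → N c r z w) → False :=
    fun z hz hzv hD => lemma1 h hx hy hxy hH1 hH2 hvb hv hvmax hz hzv hD
  refine ⟨v, hvb, hv, ?_, ?_, ?_⟩
  · rintro w ⟨hw1, hw2⟩
    obtain ⟨⟨h1, h2, h3⟩, h4, -⟩ := hv
    by_contra hcon
    have hwy : w ≠ y := by rintro rfl; omega
    have h5 := h.hc.ne hwy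
    have h6 : c w < c y := by
      by_contra h7
      exact hcon ⟨by omega, by omega⟩
    have hwv : w ≠ v := by rintro rfl; omega
    exact (h4 w ⟨by omega, h6, by omega⟩ hwv).2 ⟨hw1, hw2⟩
  · by_contra hcon
    push Not at hcon
    obtain ⟨s, hs⟩ := exists_Dm h hcon
    obtain ⟨h1, -, h3, h4⟩ := hs
    rcases h3 with h3 | h3
    · subst h3; exact hvb h1.1
    · exact hL1 s h1.1 h3 (fun w hw => h4 w (Or.inr hw))
  · intro s t hs hvt
    obtain ⟨h1, -, h3, h4⟩ := hs
    rcases h4 v (Or.inr hvt) with h5 | h5 | h5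
    · subst h5; exact absurd h1.1 hvb
    · exact absurd (hL1 s h1.1 h5 (fun w hw => h4 w (Or.inr (L_trans hw hvt)))) id
    · exact h5

theorem lemma3 [Finite X] {red : X → Prop} : ∀ (n : ℕ) (c r : X → ℤ), Sys c r red →
    ∀ p q t, R c r red p → Dm c r red q t → L c r p q →
    (∀ w, ¬ Vt r c p q w) → (∀ w, ¬ Vb r c p q w) →
    (∃ v, ¬ red v ∧ Top c r p q v) → (Set.ofPred fun w => L c r q w).ncard ≤ n → False := by
  intro n
  induction n with
  | zero =>
    intro c r h p q t hp hq hpq hH1 hH2 hex hn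
    obtain ⟨v, hvb, hv, hvU, ⟨w, hw⟩, hvs⟩ := lemma2 h hp hq.1 hpq hH1 hH2 hex
    have h1 : (Set.ofPred fun w => L c r q w) = ∅ := by
      rw [← Set.ncard_eq_zero (Set.toFinite _)]; omega
    have : w ∈ (Set.ofPred fun w => L c r q w) := hvU w hw
    rw [h1] at this
    exact this
  | succ n ih =>
    intro c r h p q t hp hq hpq hH1 hH2 hex hn
    classical
    obtain ⟨v, hvb, hv, hvU, ⟨w0, hw0⟩, hvs⟩ := lemma2 h hp hq.1 hpq hH1 hH2 hex
    -- highest maximal point above v
    have hne : (Set.ofPred fun t' => L c r v t' ∧ ∀ w, ¬ L c r t' w).Nonempty := by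
      obtain ⟨t', ht', ht'm⟩ := exists_max_above c r w0
      refine ⟨t', ?_, ht'm⟩
      rcases ht' with rfl | ht'
      · exact hw0
      · exact L_trans hw0 ht'
    obtain ⟨t', ⟨hvt', ht'm⟩, ht'max⟩ := Set.exists_max_image _ r (Set.toFinite _) hne
    obtain ⟨q', hq'⟩ := exists_Dm h ht'm
    have hvq' := hvs q' t' hq' hvt'
    have hqq' := hvU q' hvq'
    have hqR := hq.1
    obtain ⟨hq1, htm, hqt, hqD⟩ := id hq
    obtain ⟨hq'1, -, hq't', hq'D⟩ := id hq'
    obtain ⟨⟨hv1, hv2, hv3⟩, hvA, hvB⟩ := id hv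
    -- coordinates
    have hcne : ∀ a b, a ≠ b → c a ≠ c b := fun a b hab => h.hc.ne hab
    have hrne : ∀ a b, a ≠ b → r a ≠ r b := fun a b hab => h.hr.ne hab
    have hqt_c : c q ≤ c t := by rcases hqt with rfl | h1; exacts [le_rfl, h1.1.le]
    have hqt_r : r q ≤ r t := by rcases hqt with rfl | h1; exacts [le_rfl, h1.2.le]
    have hq't'_c : c q' ≤ c t' := by rcases hq't' with rfl | h1; exacts [le_rfl, h1.1.le]
    have hq't'_r : r q' ≤ r t' := by rcases hq't' with rfl | h1; exacts [le_rfl, h1.2.le]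
    have htq : t ≠ q := by rintro rfl; exact htm q' hqq'
    -- (i)
    have htv : ¬ L c r v t := by
      intro h1
      have := (hvs q t hq h1).2
      omega
    have htv' : t ≠ v := by rintro rfl; omega
    have hrtv : r t < r v := by
      have := hrne t v htv'
      by_contra hcon
      exact htv ⟨by omega, by omega⟩
    -- (ii)
    have hNW : ∀ w, c w < c q → r q < r w → r t < r w := by
      intro w h1 h2
      by_contra hcon
      have hwt : w ≠ t := by rintro rfl; omega
      have h3 := hrne w t hwt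
      rcases hqD w (Or.inr ⟨by omega, by omega⟩) with h4 | h4 | h4
      · subst h4; omega
      · exact absurd h4.1 (by omega)
      · exact absurd h4.2 (by omega)
    have hSE : ∀ w, c q < c w → r w < r q → c t < c w := by
      intro w h1 h2
      by_contra hcon
      have hwt : w ≠ t := by rintro rfl; omega
      have h3 := hcne w t hwt
      rcases hqD w (Or.inr ⟨by omega, by omega⟩) with h4 | h4 | h4
      · subst h4; omega
      · exact absurd h4.2 (by omega)
      · exact absurd h4.1 (by omega)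
    have hvt'1 := hvt'.1
    have hvt'2 := hvt'.2
    have hvq'1 := hvq'.1
    have hvq'2 := hvq'.2
    have hqq'1 := hqq'.1
    have hqq'2 := hqq'.2
    -- (iii)
    have htt' : c t' < c t := by
      have hne : t' ≠ t := by rintro rfl; omega
      have := hcne t' t hne
      by_contra hcon
      exact htm t' ⟨by omega, by omega⟩
    -- (iv)
    have hV1 : ∀ w, ¬ Vt c r q q' w := by
      rintro w ⟨h1, h2, h3⟩
      have h4 : r t' < r w := by
        by_contra hcon
        have hwt : w ≠ t' := by rintro rfl; omega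
        have h5 := hrne w t' hwt
        rcases hq'D w (Or.inr ⟨by omega, by omega⟩) with h6 | h6 | h6
        · subst h6; omega
        · exact absurd h6.1 (by omega)
        · exact absurd h6.2 (by omega)
      obtain ⟨M, hM, hMm⟩ := exists_max_above c r w
      have hMw_c : c w ≤ c M := by rcases hM with rfl | h1; exacts [le_rfl, h1.1.le]
      have hMw_r : r w ≤ r M := by rcases hM with rfl | h1; exacts [le_rfl, h1.2.le]
      have := ht'max M ⟨⟨by omega, by omega⟩, hMm⟩
      omega
    have hV2 : ∀ w, ¬ Vb c r q q' w := by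
      rintro w ⟨h1, h2, h3⟩
      have := hSE w h1 h3
      omega
    -- (v)
    have hvH : Vb r c q q' v := ⟨hv3, hvq'2, hv2⟩
    have htH : Vt r c q q' t := by
      refine ⟨?_, by omega, by omega⟩
      have := hrne t q htq
      omega
    obtain ⟨k, hkb, hk | hk⟩ := h.bH q q' hq1.1 hq'1.1 hqq' hV1 hV2 ⟨v, Or.inr hvH⟩
    · refine ih r c h.swap q q' t' (R_swap hq1) (Dm_swap hq') ((L_swap c r q q').2 hqq') hV1 hV2
        ⟨k, hkb, hk⟩ ?_
      have hsub : (Set.ofPred fun w => L r c q' w) ⊂ (Set.ofPred fun w => L c r q w) := by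
        refine ⟨?_, ?_⟩
        · intro w hw
          exact L_trans hqq' ((L_swap c r q' w).1 hw)
        · intro hcon
          have : q' ∈ (Set.ofPred fun w => L r c q' w) := hcon (show q' ∈ (Set.ofPred fun w => L c r q w) from hqq')
          exact L_irrefl this
      have := Set.ncard_lt_ncard hsub (Set.toFinite _)
      omega
    · obtain ⟨⟨h1, h2, h3⟩, -, h5⟩ := hk
      have h6 := h5 t htH
      have h7 := hNW k h3 h1
      have := h6.1
      omega

theorem lemma3a [Finite X] {c r : X → ℤ} {red : X → Prop} (h : Sys c r red) {p q t : X}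
    (hp : R c r red p) (hq : Dm c r red q t) (hpq : L c r p q)
    (hH1 : ∀ w, ¬ Vt r c p q w) (hH2 : ∀ w, ¬ Vb r c p q w) :
    ¬ ∃ v, ¬ red v ∧ Top c r p q v :=
  fun hex => lemma3 _ c r h p q t hp hq hpq hH1 hH2 hex le_rfl

theorem cor [Finite X] {c r : X → ℤ} {red : X → Prop} (h : Sys c r red) {p q t t' : X}
    (hp : Dm (ng c) (ng r) red p t') (hpR : R c r red p) (hq : Dm c r red q t)
    (hpq : L c r p q)
    (hH1 : ∀ w, ¬ Vt r c p q w) (hH2 : ∀ w, ¬ Vb r c p q w) (w : X) :
    ¬ Vt c r p q w ∧ ¬ Vb c r p q w := by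
  by_contra hcon
  have h1 : Vt c r p q w ∨ Vb c r p q w := by
    by_contra h2
    exact hcon ⟨fun h3 => h2 (Or.inl h3), fun h3 => h2 (Or.inr h3)⟩
  obtain ⟨v, hvb, hv | hv⟩ := h.bV p q hpR.1 hq.1.1 hpq hH1 hH2 ⟨w, h1⟩
  · exact lemma3a h hpR hq hpq hH1 hH2 ⟨v, hvb, hv⟩
  · refine lemma3a h.rot (R_ng hq.1) hp ((L_ng c r q p).2 hpq) ?_ ?_
      ⟨v, hvb, (Top_ng c r q p v).2 hv⟩
    · intro w hw
      exact hH2 w ((Vt_ng r c q p w).1 hw)
    · intro w hw
      exact hH1 w ((Vb_ng r c q p w).1 hw)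

theorem twin {c r : X → ℤ} (hc : Function.Injective c) (hr : Function.Injective r) {p q : X}
    (hpq : L c r p q)
    (h1 : ∀ w, ¬ Vt c r p q w) (h2 : ∀ w, ¬ Vb c r p q w)
    (h3 : ∀ w, ¬ Vt r c p q w) (h4 : ∀ w, ¬ Vb r c p q w) (w : X) :
    N c r p w ↔ N c r q w := by
  obtain ⟨hc1, hr1⟩ := hpq
  constructor
  · rintro (h5 | h5 | h5)
    · subst h5; exact Or.inr (Or.inr ⟨hc1, hr1⟩)
    · by_cases hwq : w = q
      · exact Or.inl hwq
      have h6 := hc.ne hwq
      have h7 := hr.ne hwq
      rcases lt_or_gt_of_ne h6 with h6 | h6 <;> rcases lt_or_gt_of_ne h7 with h7 | h7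
      · exact Or.inr (Or.inr ⟨h6, h7⟩)
      · exact absurd (show Vt c r p q w from ⟨h5.1, h6, h7⟩) (h1 w)
      · exact absurd (show Vt r c p q w from ⟨h5.2, h7, h6⟩) (h3 w)
      · exact Or.inr (Or.inl ⟨h6, h7⟩)
    · exact Or.inr (Or.inr (L_trans h5 ⟨hc1, hr1⟩))
  · rintro (h5 | h5 | h5)
    · subst h5; exact Or.inr (Or.inl ⟨hc1, hr1⟩)
    · exact Or.inr (Or.inl (L_trans ⟨hc1, hr1⟩ h5))
    · by_cases hwp : w = p
      · exact Or.inl hwp
      have h6 := hc.ne hwp
      have h7 := hr.ne hwp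
      rcases lt_or_gt_of_ne h6 with h6 | h6 <;> rcases lt_or_gt_of_ne h7 with h7 | h7
      · exact Or.inr (Or.inr ⟨h6, h7⟩)
      · exact absurd (show Vb r c p q w from ⟨h7, h5.2, h6⟩) (h4 w)
      · exact absurd (show Vb c r p q w from ⟨h6, h5.1, h7⟩) (h2 w)
      · exact Or.inr (Or.inl ⟨h6, h7⟩)

theorem ng_ng (c : X → ℤ) : ng (ng c) = c := by
  funext x; unfold ng; omega

theorem exists_min_below [Finite X] (c r : X → ℤ) (a : X) :
    ∃ t, (t = a ∨ L c r t a) ∧ ∀ w, ¬ L c r w t := by
  obtain ⟨t, h1, h2⟩ := exists_max_above (ng c) (ng r) a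
  refine ⟨t, ?_, ?_⟩
  · rcases h1 with h1 | h1
    · exact Or.inl h1
    · exact Or.inr ((L_ng c r a t).1 h1)
  · intro w hw
    exact h2 w ((L_ng c r t w).2 hw)

/-- the lowest maximal point above `z` -/
theorem endA [Finite X] {c r : X → ℤ} {red : X → Prop} (h : Sys c r red) {z t t' M : X}
    (hz : Dm c r red z t) (hz' : Dm (ng c) (ng r) red z t')
    (hM : M = z ∨ L c r z M) (hMm : ∀ w, ¬ L c r M w)
    (hMl : ∀ M', (M' = z ∨ L c r z M') → (∀ w, ¬ L c r M' w) → r M ≤ r M') (w : X)
    (hw : w = M ∨ L c r w M) : N c r z w := by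
  have hcne : ∀ a b, a ≠ b → c a ≠ c b := fun a b hab => h.hc.ne hab
  have hrne : ∀ a b, a ≠ b → r a ≠ r b := fun a b hab => h.hr.ne hab
  obtain ⟨s, hs⟩ := exists_Dm h hMm
  obtain ⟨hsR, -, hsM, hsD⟩ := id hs
  obtain ⟨hzR, htm, hzt, hzD⟩ := id hz
  have hsw := hsD w hw
  have hzM : z = M ∨ L c r z M := by
    rcases hM with h1 | h1
    · exact Or.inl h1.symm
    · exact Or.inr h1
  have hzt_c : c z ≤ c t := by rcases hzt with rfl | h1; exacts [le_rfl, h1.1.le]
  have hzt_r : r z ≤ r t := by rcases hzt with rfl | h1; exacts [le_rfl, h1.2.le]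
  have hzM_c : c z ≤ c M := by rcases hzM with rfl | h1; exacts [le_rfl, h1.1.le]
  have hzM_r : r z ≤ r M := by rcases hzM with rfl | h1; exacts [le_rfl, h1.2.le]
  have hsM_c : c s ≤ c M := by rcases hsM with rfl | h1; exacts [le_rfl, h1.1.le]
  have hsM_r : r s ≤ r M := by rcases hsM with rfl | h1; exacts [le_rfl, h1.2.le]
  have hMt : r M ≤ r t := by
    apply hMl t _ htm
    rcases hzt with h1 | h1
    · exact Or.inl h1.symm
    · exact Or.inr h1
  rcases hsD z hzM with h1 | h1 | h1
  · subst h1; exact hsw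
  · -- s < z
    have hsub : ∀ u, N c r z u → N c r s u := by
      intro u hu
      rcases hu with rfl | hu | hu
      · exact Or.inr (Or.inl h1)
      · exact Or.inr (Or.inl (L_trans h1 hu))
      · apply hsD
        right
        rcases hzM with rfl | h2
        · exact hu
        · exact L_trans hu h2
    exact hzR.2 s hsR.1 hsub w hsw
  · -- z < s
    obtain ⟨h2, h3⟩ := id h1
    have hHl : ∀ u, ¬ Vb r c z s u := by
      rintro u ⟨h4, h5, h6⟩
      have hut : u ≠ t := by rintro rfl; omega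
      have h7 := hrne u t hut
      have h8 : r u < r t := by omega
      rcases hzD u (Or.inr ⟨by omega, h8⟩) with h9 | h9 | h9
      · subst h9; omega
      · exact absurd h9.1 (by omega)
      · exact absurd h9.2 (by omega)
    have hHr : ∀ u, ¬ Vt r c z s u := by
      rintro u ⟨h4, h5, h6⟩
      have huM : u ≠ M := by rintro rfl; omega
      have h7 := hcne u M huM
      have h8 : c M < c u := by
        by_contra hcon
        rcases hsD u (Or.inr ⟨by omega, by omega⟩) with h9 | h9 | h9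
        · subst h9; omega
        · exact absurd h9.2 (by omega)
        · exact absurd h9.1 (by omega)
      obtain ⟨M', hM', hM'm⟩ := exists_max_above c r u
      have hM'_c : c u ≤ c M' := by rcases hM' with rfl | h1; exacts [le_rfl, h1.1.le]
      have hM'_r : r u ≤ r M' := by rcases hM' with rfl | h1; exacts [le_rfl, h1.2.le]
      have h9 := hMl M' (Or.inr ⟨by omega, by omega⟩) hM'm
      have h10 : M' ≠ M := by rintro rfl; omega
      have h11 := hrne M' M h10
      exact hMm M' ⟨by omega, by omega⟩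
    have hcor := cor h hz' hzR hs h1 hHr hHl
    exact (twin h.hc h.hr h1 (fun u => (hcor u).1) (fun u => (hcor u).2) hHr hHl w).2 hsw

/-- Theorem WP: a connected one-root system has a red point comparable to all others. -/
theorem wp [Finite X] {c r : X → ℤ} {red : X → Prop} (h : Sys c r red) :
    ∃ z, red z ∧ ∀ w, N c r z w := by
  classical
  have hcne : ∀ a b, a ≠ b → c a ≠ c b := fun a b hab => h.hc.ne hab
  have hrne : ∀ a b, a ≠ b → r a ≠ r b := fun a b hab => h.hr.ne hab
  -- the extremal pair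
  have hne : {y : X × X | (y.1 = y.2 ∨ L c r y.1 y.2) ∧ (∀ w, ¬ L c r w y.1) ∧
      ∀ w, ¬ L c r y.2 w}.Nonempty := by
    obtain ⟨a, -⟩ := h.hred
    obtain ⟨t, ht, htm⟩ := exists_max_above c r a
    obtain ⟨m, hm, hmm⟩ := exists_min_below c r a
    refine ⟨(m, t), ?_, hmm, htm⟩
    show m = t ∨ L c r m t
    rcases ht with rfl | ht
    · exact hm
    · rcases hm with rfl | hm
      · exact Or.inr ht
      · exact Or.inr (L_trans hm ht)
  obtain ⟨⟨t', t⟩, ⟨htt, ht'm, htm⟩, hmax⟩ :=
    Set.exists_max_image _ (fun y : X × X => r y.2 - r y.1) (Set.toFinite _) hne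
  have hmax' : ∀ a b, (a = b ∨ L c r a b) → (∀ w, ¬ L c r w a) → (∀ w, ¬ L c r b w) →
      r b - r a ≤ r t - r t' := fun a b h1 h2 h3 => hmax (a, b) ⟨h1, h2, h3⟩
  clear hmax hne
  change t' = t ∨ L c r t' t at htt
  change ∀ w, ¬ L c r w t' at ht'm
  change ∀ w, ¬ L c r t w at htm
  obtain ⟨q, hq⟩ := exists_Dm h htm
  have ht'm2 : ∀ w, ¬ L (ng c) (ng r) t' w := fun w hw => ht'm w ((L_ng c r t' w).1 hw)
  obtain ⟨p, hp⟩ := exists_Dm h.rot ht'm2
  have hpR : R c r red p := by
    have := R_ng hp.1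
    rwa [ng_ng, ng_ng] at this
  have hpt : p = t' ∨ L c r t' p := by
    rcases hp.2.2.1 with h1 | h1
    · exact Or.inl h1
    · exact Or.inr ((L_ng c r p t').1 h1)
  have hpD : ∀ w, (w = t' ∨ L c r t' w) → N c r p w := by
    intro w hw
    refine (N_ng c r p w).1 (hp.2.2.2 w ?_)
    rcases hw with h1 | h1
    · exact Or.inl h1
    · exact Or.inr ((L_ng c r w t').2 h1)
  obtain ⟨hqR, -, hqt, hqD⟩ := id hq
  have hqt_c : c q ≤ c t := by rcases hqt with rfl | h1; exacts [le_rfl, h1.1.le]
  have hqt_r : r q ≤ r t := by rcases hqt with rfl | h1; exacts [le_rfl, h1.2.le]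
  have hpt_c : c t' ≤ c p := by rcases hpt with rfl | h1; exacts [le_rfl, h1.1.le]
  have hpt_r : r t' ≤ r p := by rcases hpt with rfl | h1; exacts [le_rfl, h1.2.le]
  have htq : q = t' ∨ L c r t' q := by
    rcases hqD t' htt with h1 | h1 | h1
    · exact Or.inl h1.symm
    · exact absurd h1 (ht'm q)
    · exact Or.inr h1
  have hNpq : ∀ w, N c r p w ↔ N c r q w := by
    rcases hpD q htq with h1 | h1 | h1
    · subst h1; exact fun w => Iff.rfl
    · -- p < q
      obtain ⟨h2, h3⟩ := id h1
      have hV1 : ∀ w, ¬ Vt c r p q w := by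
        rintro w ⟨h4, h5, h6⟩
        have hwt : w ≠ t := by rintro rfl; omega
        have h7 := hrne w t hwt
        have h8 : r t < r w := by
          by_contra hcon
          rcases hqD w (Or.inr ⟨by omega, by omega⟩) with h9 | h9 | h9
          · subst h9; omega
          · exact absurd h9.1 (by omega)
          · exact absurd h9.2 (by omega)
        obtain ⟨M', hM', hM'm⟩ := exists_max_above c r w
        have hM'_c : c w ≤ c M' := by rcases hM' with rfl | h1; exacts [le_rfl, h1.1.le]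
        have hM'_r : r w ≤ r M' := by rcases hM' with rfl | h1; exacts [le_rfl, h1.2.le]
        have := hmax' t' M' (Or.inr ⟨by omega, by omega⟩) ht'm hM'm
        omega
      have hV2 : ∀ w, ¬ Vb c r p q w := by
        rintro w ⟨h4, h5, h6⟩
        have hwt : w ≠ t' := by rintro rfl; omega
        have h7 := hrne w t' hwt
        have h8 : r w < r t' := by
          by_contra hcon
          rcases hpD w (Or.inr ⟨by omega, by omega⟩) with h9 | h9 | h9
          · subst h9; omega
          · exact absurd h9.2 (by omega)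
          · exact absurd h9.1 (by omega)
        obtain ⟨M', hM', hM'm⟩ := exists_min_below c r w
        have hM'_c : c M' ≤ c w := by rcases hM' with rfl | h1; exacts [le_rfl, h1.1.le]
        have hM'_r : r M' ≤ r w := by rcases hM' with rfl | h1; exacts [le_rfl, h1.2.le]
        have := hmax' M' t (Or.inr ⟨by omega, by omega⟩) hM'm htm
        omega
      have hcor := cor h.swap (Dm_swap hp) (R_swap hpR) (Dm_swap hq) ((L_swap c r p q).2 h1)
        hV1 hV2
      exact twin h.hc h.hr h1 hV1 hV2 (fun u => (hcor u).1) (fun u => (hcor u).2)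
    · -- q < p
      have hsub : ∀ w, N c r q w → N c r p w := by
        intro w hw
        rcases hw with rfl | hw | hw
        · exact Or.inr (Or.inr h1)
        · apply hpD
          rcases htq with rfl | h2
          · exact Or.inr hw
          · exact Or.inr (L_trans h2 hw)
        · exact Or.inr (Or.inr (L_trans hw h1))
      exact fun w => ⟨hqR.2 p hpR.1 hsub w, hsub w⟩
  -- q is also the dual dominator of t'
  have hq' : Dm (ng c) (ng r) red q t' := by
    refine ⟨R_ng hqR, ht'm2, ?_, ?_⟩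
    · rcases htq with h1 | h1
      · exact Or.inl h1
      · exact Or.inr ((L_ng c r q t').2 h1)
    · intro w hw
      refine (N_ng c r q w).2 ((hNpq w).1 (hpD w ?_))
      rcases hw with h1 | h1
      · exact Or.inl h1
      · exact Or.inr ((L_ng c r w t').1 h1)
  have hqU : ∀ w, (w = t' ∨ L c r t' w) → N c r q w := fun w hw => (hNpq w).1 (hpD w hw)
  -- the lowest maximal point M and the highest minimal point m
  have hneM : {M : X | (M = q ∨ L c r q M) ∧ ∀ w, ¬ L c r M w}.Nonempty := by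
    obtain ⟨M, hM, hMm⟩ := exists_max_above c r q
    exact ⟨M, hM, hMm⟩
  obtain ⟨M, ⟨hM, hMm⟩, hMl⟩ := Set.exists_min_image _ r (Set.toFinite _) hneM
  have hnem : {m : X | (m = q ∨ L c r m q) ∧ ∀ w, ¬ L c r w m}.Nonempty := by
    obtain ⟨m, hm, hmm⟩ := exists_min_below c r q
    exact ⟨m, hm, hmm⟩
  obtain ⟨m, ⟨hm, hmm⟩, hml⟩ := Set.exists_max_image _ r (Set.toFinite _) hnem
  have hMD : ∀ w, (w = M ∨ L c r w M) → N c r q w := fun w hw =>
    endA h hq hq' hM hMm (fun M' h1 h2 => hMl M' ⟨h1, h2⟩) w hw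
  have hmU : ∀ w, (w = m ∨ L c r m w) → N c r q w := by
    intro w hw
    have hqq : Dm (ng (ng c)) (ng (ng r)) red q t := by rwa [ng_ng, ng_ng]
    refine (N_ng c r q w).1 (endA h.rot hq' hqq (M := m) ?_ ?_ ?_ w ?_)
    · rcases hm with h1 | h1
      · exact Or.inl h1
      · exact Or.inr ((L_ng c r q m).2 h1)
    · intro u hu
      exact hmm u ((L_ng c r m u).1 hu)
    · intro M' h1 h2
      have h3 : (M' = q ∨ L c r M' q) := by
        rcases h1 with h1 | h1
        · exact Or.inl h1
        · exact Or.inr ((L_ng c r q M').1 h1)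
      have := hml M' ⟨h3, fun u hu => h2 u ((L_ng c r M' u).2 hu)⟩
      show - r m ≤ - r M'
      omega
    · rcases hw with h1 | h1
      · exact Or.inl h1
      · exact Or.inr ((L_ng c r w m).2 h1)
  have hM_c : c q ≤ c M := by rcases hM with rfl | h1; exacts [le_rfl, h1.1.le]
  have hM_r : r q ≤ r M := by rcases hM with rfl | h1; exacts [le_rfl, h1.2.le]
  have hm_c : c m ≤ c q := by rcases hm with rfl | h1; exacts [le_rfl, h1.1.le]
  have hm_r : r m ≤ r q := by rcases hm with rfl | h1; exacts [le_rfl, h1.2.le]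
  have htq_c : c t' ≤ c q := by rcases htq with rfl | h1; exacts [le_rfl, h1.1.le]
  have htq_r : r t' ≤ r q := by rcases htq with rfl | h1; exacts [le_rfl, h1.2.le]
  have hNW : ∀ w, c w < c q → r q < r w → ¬ N c r q w := by
    rintro w h1 h2 (h3 | h3 | h3)
    · subst h3; omega
    · exact absurd h3.1 (by omega)
    · exact absurd h3.2 (by omega)
  have hSE : ∀ w, c q < c w → r w < r q → ¬ N c r q w := by
    rintro w h1 h2 (h3 | h3 | h3)
    · subst h3; omega
    · exact absurd h3.2 (by omega)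
    · exact absurd h3.1 (by omega)
  refine ⟨q, hqR.1, ?_⟩
  -- closure under comparability
  have hstep : ∀ u w, N c r q u → (L c r u w ∨ L c r w u) → N c r q w := by
    intro u w hu huw
    by_contra hcon
    have hwq : w ≠ q := fun h1 => hcon (Or.inl h1)
    have h1 := hcne w q hwq
    have h2 := hrne w q hwq
    -- position of maximal and minimal points
    have hup : L c r q u → ∃ M', L c r q M' ∧ (∀ v, ¬ L c r M' v) ∧ c u ≤ c M' ∧ r u ≤ r M' := by
      intro h3
      obtain ⟨M', h4, h5⟩ := exists_max_above c r u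
      rcases h4 with rfl | h4
      · exact ⟨M', h3, h5, le_rfl, le_rfl⟩
      · exact ⟨M', L_trans h3 h4, h5, h4.1.le, h4.2.le⟩
    have hdn : L c r u q → ∃ M', L c r M' q ∧ (∀ v, ¬ L c r v M') ∧ c M' ≤ c u ∧ r M' ≤ r u := by
      intro h3
      obtain ⟨M', h4, h5⟩ := exists_min_below c r u
      rcases h4 with rfl | h4
      · exact ⟨M', h3, h5, le_rfl, le_rfl⟩
      · exact ⟨M', L_trans h4 h3, h5, h4.1.le, h4.2.le⟩
    rcases lt_or_gt_of_ne h1 with h1 | h1 <;> rcases lt_or_gt_of_ne h2 with h2 | h2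
    · exact hcon (Or.inr (Or.inr ⟨h1, h2⟩))
    · -- w is NW of q
      have h3 : r t < r w := by
        by_contra h4
        have hwt : w ≠ t := by rintro rfl; omega
        have := hrne w t hwt
        exact hcon (hqD w (Or.inr ⟨by omega, by omega⟩))
      have h4 : c w < c m := by
        by_contra h4
        have hwt : w ≠ m := by rintro rfl; omega
        have := hcne w m hwt
        exact hcon (hmU w (Or.inr ⟨by omega, by omega⟩))
      rcases huw with huw | huw
      · -- u < w
        obtain ⟨h5, h6⟩ := huw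
        have h7 : L c r u q := by
          rcases hu with rfl | hu | hu
          · omega
          · exact absurd hu.1 (by omega)
          · exact hu
        obtain ⟨M', h8, h9, h10, h11⟩ := hdn h7
        have h12 := hml M' ⟨Or.inr h8, h9⟩
        have h13 : M' ≠ m := by rintro rfl; omega
        have h14 := hrne M' m h13
        exact hmm M' ⟨by omega, by omega⟩
      · obtain ⟨h5, h6⟩ := huw
        have h7 : L c r q u := by
          rcases hu with rfl | hu | hu
          · omega
          · exact hu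
          · exact absurd hu.2 (by omega)
        obtain ⟨M', h8, h9, h10, h11⟩ := hup h7
        have h12 := hmax' t' M' (Or.inr ⟨by have := h8.1; omega, by have := h8.2; omega⟩) ht'm h9
        omega
    · -- w is SE of q
      have h3 : r w < r t' := by
        by_contra h4
        have hwt : w ≠ t' := by rintro rfl; omega
        have := hrne w t' hwt
        exact hcon (hqU w (Or.inr ⟨by omega, by omega⟩))
      have h4 : c M < c w := by
        by_contra h4
        have hwt : w ≠ M := by rintro rfl; omega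
        have := hcne w M hwt
        exact hcon (hMD w (Or.inr ⟨by omega, by omega⟩))
      rcases huw with huw | huw
      · -- u < w
        obtain ⟨h5, h6⟩ := huw
        have h7 : L c r u q := by
          rcases hu with rfl | hu | hu
          · omega
          · exact absurd hu.2 (by omega)
          · exact hu
        obtain ⟨M', h8, h9, h10, h11⟩ := hdn h7
        have h12 := hmax' M' t (Or.inr ⟨by have := h8.1; omega, by have := h8.2; omega⟩) h9 htm
        omega
      · obtain ⟨h5, h6⟩ := huw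
        have h7 : L c r q u := by
          rcases hu with rfl | hu | hu
          · omega
          · exact hu
          · exact absurd hu.1 (by omega)
        obtain ⟨M', h8, h9, h10, h11⟩ := hup h7
        have h12 := hMl M' ⟨Or.inr h8, h9⟩
        have h13 : M' ≠ M := by rintro rfl; omega
        have h14 := hrne M' M h13
        exact hMm M' ⟨by omega, by omega⟩
    · exact hcon (Or.inr (Or.inl ⟨h1, h2⟩))
  intro w
  have hpath := h.conn q w
  induction hpath with
  | refl => exact Or.inl rfl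
  | tail _ h2 ih => exact hstep _ _ ih h2

end Pool.CW.WPT
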